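import Pool.Agent.H76.SW.T

set_option autoImplicit false

namespace Pool.Agent.H68.SW

open Pool.Agent.H76.SW Relation

theorem pf_F3A : U_f3a_down := by
  intro P Q S ρ hρ hρr fz lk l0 s0 n l' s' h
  have key : ∀ v : (ℕ × S) × Q, ReflTransGen (fun a b : (ℕ × S) × Q =>
      ρ (fz a.1.1 a.1.2, a.2) (fz b.1.1 b.1.2, b.2) ∧
      (a.1.1 = b.1.1 ∨ (b.1.1 = a.1.1 + 1 ∧ lk b.1.1 b.1.2 a.1.2) ∨
      (a.1.1 = b.1.1 + 1 ∧ lk a.1.1 a.1.2 b.1.2))) ((0, l0), s0) v →
      ∃ (m p : ℕ → S) (s t : ℕ → Q), m 0 = l0 ∧ t 0 = s0 ∧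
      (∀ i, i < v.1.1 → ρ (fz i (m i), t i) (fz i (p (i + 1)), s (i + 1)) ∧
        lk (i + 1) (m (i + 1)) (p (i + 1)) ∧
        ρ (fz i (p (i + 1)), s (i + 1)) (fz (i + 1) (m (i + 1)), t (i + 1))) ∧
      ρ (fz v.1.1 (m v.1.1), t v.1.1) (fz v.1.1 v.1.2, v.2) := by
    intro v hv
    induction hv with
    | refl =>
      exact ⟨fun _ => l0, fun _ => l0, fun _ => s0, fun _ => s0, rfl, rfl,
        fun i hi => absurd hi (Nat.not_lt_zero i), hρr _⟩
    | @tail b c _ hbc ih =>
      obtain ⟨m, p, s, t, hm, ht, hi, hlast⟩ := ih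
      obtain ⟨⟨bn, bl⟩, bs⟩ := b
      obtain ⟨⟨cn, cl⟩, cs⟩ := c
      dsimp only at hi hlast hbc ⊢
      obtain ⟨hr, h1 | ⟨h1, h2⟩ | ⟨h1, h2⟩⟩ := hbc
      · subst h1
        exact ⟨m, p, s, t, hm, ht, hi, hρ _ _ _ hlast hr⟩
      · subst h1
        refine ⟨fun i => if i = bn + 1 then cl else m i, fun i => if i = bn + 1 then bl else p i,
          fun i => if i = bn + 1 then bs else s i, fun i => if i = bn + 1 then cs else t i,
          ?_, ?_, ?_, ?_⟩
        · beta_reduce
          rw [if_neg (by omega)]; exact hm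
        · beta_reduce
          rw [if_neg (by omega)]; exact ht
        · intro i hi'
          beta_reduce
          by_cases hib : i = bn
          · subst hib
            rw [if_neg (by omega : ¬ i = i + 1), if_neg (by omega : ¬ i = i + 1), if_pos rfl,
              if_pos rfl, if_pos rfl, if_pos rfl]
            exact ⟨hlast, h2, hr⟩
          · have hlt : i < bn := by omega
            rw [if_neg (by omega : ¬ i = bn + 1), if_neg (by omega : ¬ i = bn + 1),
              if_neg (by omega : ¬ i + 1 = bn + 1), if_neg (by omega : ¬ i + 1 = bn + 1),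
              if_neg (by omega : ¬ i + 1 = bn + 1), if_neg (by omega : ¬ i + 1 = bn + 1)]
            exact hi i hlt
        · beta_reduce
          rw [if_pos rfl, if_pos rfl]
          exact hρr _
      · subst h1
        refine ⟨m, p, s, t, hm, ht, fun i hi' => hi i (by omega), ?_⟩
        obtain ⟨h3, h4, h5⟩ := hi cn (by omega)
        exact hρ _ _ _ (hρ _ _ _ (hρ _ _ _ h3 h5) hlast) hr
  exact key _ h

end Pool.Agent.H68.SW
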