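import Pool.Agent.H76.SW.T

set_option autoImplicit false

namespace Pool.Agent.H68.SW

open Pool.Agent.H76.SW Relation

theorem pf_F5 (h1 : U_f1_leaf) (h2 : U_f2_root) (h3 : U_f3_chain) (h4 : U_f4_bound) :
    U_f5_min := by
  classical
  intro P Q J _ _ κ ρ hρ hρr g ja jb la lb F hF
  have hex : ∃ n : ℕ, ∃ F' : FS P κ, Sim ρ g ja jb la lb F' ∧ F'.size = n :=
    ⟨F.size, F, hF, rfl⟩
  obtain ⟨F', hF', hsz⟩ := Nat.find_spec hex
  have hmin : ∀ F'' : FS P κ, Sim ρ g ja jb la lb F'' → ¬ F''.size < F'.size := by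
    intro F'' h'' hlt
    rw [hsz] at hlt
    exact Nat.find_min hex hlt ⟨F'', h'', rfl⟩
  refine ⟨F', hF', ?_⟩
  obtain ⟨mk, hg, hG⟩ := hF'
  letI := F'.fin
  have hM : ∀ x, x ∉ Finset.univ.image mk → ∀ j, mk j ≠ x := by
    intro x hx j hj
    exact hx (Finset.mem_image.2 ⟨j, Finset.mem_univ j, hj⟩)
  have key := h4 F'.par F'.rk F'.hrk (Finset.univ.image mk)
    (κ ^ (2 * (κ * Fintype.card Q) ^ 2)) ?_ ?_ ?_
  · refine le_trans (show F'.size ≤ _ from key) ?_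
    unfold NB
    have : (Finset.univ.image mk).card ≤ Fintype.card J := Finset.card_image_le
    gcongr
  · intro x hx
    by_contra hcon
    obtain ⟨F'', h5, h6⟩ := h1 ρ hρ hρr g ja jb la lb F' mk hg hG x (hM x hx)
      (fun y hy => hcon ⟨y, hy⟩)
    exact hmin F'' h5 h6
  · intro x hx hpar c hc
    obtain ⟨F'', h5, h6⟩ := h2 ρ hρ hρr g ja jb la lb F' mk hg hG x c (hM x hx) hpar hc
    exact hmin F'' h5 h6
  · intro L z hp hz hc
    by_contra hcon
    obtain ⟨F'', h5, h6⟩ := h3 ρ hρ hρr g ja jb la lb F' mk hg hG L (not_le.1 hcon) z hp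
      (fun i hi hiL => hM _ (hz i hi hiL)) hc
    exact hmin F'' h5 h6

end Pool.Agent.H68.SW
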